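import Pool.Agent.Helper6.NS.Geo

/-! KU row G3b (MP_184fc9_ag): the twist of a line bundle by the canonical bundle is a line
bundle. -/

namespace Pool.Agent.Helper6.NS

open CategoryTheory CategoryTheory.Limits CategoryTheory.Pretriangulated Module
open CategoryTheory.Triangulated
open scoped ZeroObject
open Pool.Agent.Helper6.KE

universe v₁ u₁ v u w

namespace G3b17

variable {C : Type u} [Category.{v} C] [Preadditive C] [HasZeroObject C] [HasShift C ℤ]
  [∀ n : ℤ, (shiftFunctor C n).Additive] [Pretriangulated C]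

/-- an additive function on distinguished triangles is invariant under isomorphisms -/
theorem add_iso {G : Type*} [AddCommGroup G] (r : C → G)
    (hr : ∀ T ∈ distTriang C, r T.obj₂ = r T.obj₁ + r T.obj₃) {X Y : C} (e : X ≅ Y) :
    r X = r Y := by
  have h0 : ∀ Z : C, r Z = r Z + r (0 : C) := fun Z => hr _ (contractible_distinguished Z)
  have hz : r (0 : C) = 0 := by
    have := h0 (0 : C)
    exact (left_eq_add.1 this)
  have hT : Triangle.mk e.hom (0 : Y ⟶ (0 : C)) (0 : (0 : C) ⟶ X⟦(1 : ℤ)⟧) ∈ distTriang C := by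
    refine isomorphic_distinguished _ (contractible_distinguished X) _ ?_
    refine Triangle.isoMk _ _ (Iso.refl X) e.symm (Iso.refl (0 : C)) ?_ ?_ ?_
    · change e.hom ≫ e.inv = 𝟙 X ≫ 𝟙 X
      rw [e.hom_inv_id, Category.comp_id]
    · change (0 : Y ⟶ (0 : C)) ≫ 𝟙 (0 : C) = e.inv ≫ (0 : X ⟶ (0 : C))
      rw [zero_comp, comp_zero]
    · change (0 : (0 : C) ⟶ X⟦(1 : ℤ)⟧) ≫ (shiftFunctor C (1 : ℤ)).map (𝟙 X)
        = 𝟙 (0 : C) ≫ (0 : (0 : C) ⟶ X⟦(1 : ℤ)⟧)
      rw [zero_comp, comp_zero]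
  have := hr _ hT
  simp only [Triangle.mk_obj₁, Triangle.mk_obj₂, Triangle.mk_obj₃] at this
  rw [this, hz, add_zero]

variable {K : Type w} [Field K] [Linear K C] {A : Type u₁} [Category.{v₁} A] [Abelian A]

/-- the twist is an involution on sheaves -/
noncomputable def twtw (X : Unnodal (C := C) K A) : X.S.tw ⋙ X.S.tw ≅ 𝟭 A := by
  refine Functor.fullyFaithfulCancelRight X.S.ι ?_
  exact Functor.associator _ _ _ ≪≫ Functor.isoWhiskerLeft X.S.tw X.S.twι ≪≫
    (Functor.associator _ _ _).symm ≪≫ Functor.isoWhiskerRight X.S.twι X.D.W ≪≫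
    Functor.associator _ _ _ ≪≫ Functor.isoWhiskerLeft X.S.ι X.D.sq ≪≫
    Functor.rightUnitor _ ≪≫ (Functor.leftUnitor _).symm

theorem tw_equiv (X : Unnodal (C := C) K A) : X.S.tw.IsEquivalence :=
  (CategoryTheory.Equivalence.mk X.S.tw X.S.tw (twtw X).symm (twtw X)).isEquivalence_functor

theorem W_equiv (X : Unnodal (C := C) K A) : X.D.W.IsEquivalence :=
  (CategoryTheory.Equivalence.mk X.D.W X.D.W X.D.sq.symm X.D.sq).isEquivalence_functor

theorem rk_tw (X : Unnodal (C := C) K A) (E : A) :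
    X.N.rk (X.S.ι.obj (X.S.tw.obj E)) = X.N.rk (X.S.ι.obj E) := by
  exact (add_iso X.N.rk X.N.rk_add (X.S.twι.app E)).trans (X.N.rk_W _)

theorem c₁_tw (X : Unnodal (C := C) K A) (E : A) :
    X.N.c₁ (X.S.ι.obj (X.S.tw.obj E)) = X.N.c₁ (X.S.ι.obj E) := by
  exact (add_iso X.N.c₁ X.N.c₁_add (X.S.twι.app E)).trans (X.N.c₁_W _)

end G3b17

variable {C : Type u} [Category.{v} C] [Preadditive C] [HasZeroObject C] [HasShift C ℤ]
  [∀ n : ℤ, (shiftFunctor C n).Additive] [Pretriangulated C]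
variable {K : Type w} [Field K] [Linear K C] {A : Type u₁} [Category.{v₁} A] [Abelian A]

open G3b17 in
theorem isLine_tw (X : Unnodal (C := C) K A) (L : A) (hL : X.IsLine L) :
    X.IsLine (X.S.tw.obj L) := by
  have := tw_equiv X
  have := W_equiv X
  let _ := X.D.commShift
  refine ⟨?_, ?_, ?_⟩
  · rw [rk_tw, hL.rk_one]
  · intro E' f hf hE'
    have h1 := hL.torsionFree (X.S.tw.obj E') (X.S.tw.map f ≫ (twtw X).hom.app L) inferInstance ?_
    · rwa [rk_tw] at h1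
    · intro hz
      apply hE'
      have hz2 : IsZero (X.S.tw.obj (X.S.tw.obj E')) := X.S.tw.map_isZero hz
      exact hz2.of_iso ((twtw X).app E').symm
  · intro R hR hdeg f
    have h1 := hL.ext_zero (X.S.tw.obj R) (by rw [rk_tw, hR])
      (by
        obtain ⟨h, hA, hh⟩ := hdeg
        exact ⟨h, hA, by rw [c₁_tw, hh]⟩)
      (X.S.twι.hom.app R ≫ X.D.W.map f ≫ (X.D.W.commShiftIso (1 : ℤ)).hom.app _ ≫
        (X.S.twι.inv.app (X.S.tw.obj L) ≫ X.S.ι.map ((twtw X).hom.app L))⟦(1 : ℤ)⟧')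
    apply X.D.W.map_injective
    rw [Functor.map_zero]
    have h2 : X.D.W.map f ≫ (X.D.W.commShiftIso (1 : ℤ)).hom.app _ ≫
        (X.S.twι.inv.app (X.S.tw.obj L) ≫ X.S.ι.map ((twtw X).hom.app L))⟦(1 : ℤ)⟧' = 0 := by
      rw [← cancel_epi (X.S.twι.hom.app R), h1, comp_zero]
    have h3 : IsIso ((X.D.W.commShiftIso (1 : ℤ)).hom.app (X.S.ι.obj (X.S.tw.obj L)) ≫
        (X.S.twι.inv.app (X.S.tw.obj L) ≫ X.S.ι.map ((twtw X).hom.app L))⟦(1 : ℤ)⟧') :=
      inferInstance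
    rw [← cancel_mono ((X.D.W.commShiftIso (1 : ℤ)).hom.app (X.S.ι.obj (X.S.tw.obj L)) ≫
        (X.S.twι.inv.app (X.S.tw.obj L) ≫ X.S.ι.map ((twtw X).hom.app L))⟦(1 : ℤ)⟧'), h2,
      zero_comp]

end Pool.Agent.Helper6.NS
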